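import Mathlib

set_option autoImplicit false

namespace Pool.Agent.H.MP_6fb490_co

open Finset Equiv

def inv {n : ℕ} (w : Perm (Fin n)) : ℕ :=
  (univ.filter (fun p : Fin n × Fin n => p.1 < p.2 ∧ w p.2 < w p.1)).card

def Avoids {n : ℕ} (w : Perm (Fin n)) : Prop :=
  ¬ ∃ i j k l : Fin n, i < j ∧ j < k ∧ k < l ∧ w i < w j ∧ w j < w l ∧ w l < w k

noncomputable def av (n k : ℕ) : ℕ := Nat.card {w : Perm (Fin n) // Avoids w ∧ inv w = k}

variable {n : ℕ}

def ins (c : Fin (n + 1)) (w : Perm (Fin n)) : Perm (Fin (n + 1)) :=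
  (finSuccEquiv n).trans (w.optionCongr.trans (finSuccEquiv' c).symm)

lemma ins_zero (c : Fin (n + 1)) (w : Perm (Fin n)) : ins c w 0 = c := by simp [ins]

lemma ins_succ (c : Fin (n + 1)) (w : Perm (Fin n)) (i : Fin n) :
    ins c w i.succ = c.succAbove (w i) := by simp [ins]

lemma val_sa (c : Fin (n + 1)) (v : Fin n) :
    ((v : ℕ) < c ∧ (c.succAbove v : ℕ) = v) ∨ ((c : ℕ) ≤ v ∧ (c.succAbove v : ℕ) = v + 1) := by
  by_cases h : v.castSucc < c
  · left; rw [Fin.succAbove_of_castSucc_lt _ _ h]; exact ⟨h, rfl⟩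
  · right; rw [Fin.succAbove_of_le_castSucc _ _ (not_lt.1 h)]; exact ⟨not_lt.1 h, rfl⟩

lemma ins_bij : Function.Bijective (fun p : Fin (n + 1) × Perm (Fin n) => ins p.1 p.2) := by
  rw [Fintype.bijective_iff_injective_and_card]
  refine ⟨?_, by simp [Fintype.card_perm, Nat.factorial_succ]⟩
  rintro ⟨c, w⟩ ⟨c', w'⟩ h
  simp only at h
  have h0 : c = c' := by rw [← ins_zero c w, h, ins_zero]
  subst h0
  refine Prod.ext rfl (Equiv.ext fun i => ?_)
  have := congrArg (fun z : Perm (Fin (n + 1)) => z i.succ) h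
  simp only [ins_succ] at this
  exact Fin.succAbove_right_injective this

lemma inv_ins (c : Fin (n + 1)) (w : Perm (Fin n)) : inv (ins c w) = c + inv w := by
  simp only [inv, card_filter, Fintype.sum_prod_type, Fin.sum_univ_succ, ins_zero, ins_succ,
    false_and, if_false, zero_add, Fin.succ_pos, true_and, Fin.not_lt_zero,
    Fin.succ_lt_succ_iff, Fin.succAbove_lt_succAbove_iff]
  congr 1
  rw [Equiv.sum_comp w (fun v => if c.succAbove v < c then 1 else 0)]
  rw [sum_congr rfl (g := fun v : Fin n => if (v : ℕ) < c then 1 else 0) (fun v _ => by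
    have := val_sa c v
    simp only [Fin.lt_def]
    split_ifs <;> omega), Fin.sum_univ_eq_sum_range (fun v => if v < (c : ℕ) then 1 else 0),
    ← card_filter]
  have : (range n).filter (fun v => v < (c : ℕ)) = range c := by
    ext v; have := c.2; simp only [mem_filter, mem_range]; omega
  rw [this, card_range]

def P (b t : ℕ) (w : Perm (Fin n)) : Prop :=
  (∀ i j k l : Fin n, i < j → j < k → k < l → (w i : ℕ) < w j → (w j : ℕ) < w l →
    (w k : ℕ) ≤ w l) ∧
  (∀ i j k : Fin n, i < j → j < k → b ≤ (w i : ℕ) → (w i : ℕ) < w k → (w j : ℕ) ≤ w k) ∧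
  (∀ i j : Fin n, i < j → t ≤ (w j : ℕ) → (w i : ℕ) ≤ w j)

lemma P_ins {b t : ℕ} (hbt : b ≤ t) (c : Fin (n + 1)) (w : Perm (Fin n)) :
    P b t (ins c w) ↔ ((c : ℕ) < b ∧ P c (t - 1) w) ∨ (b ≤ c ∧ (c : ℕ) ≤ t ∧ P b c w) := by
  have hs := fun i => val_sa c (w i)
  constructor
  · rintro ⟨h1, h2, h3⟩
    have a1 : ∀ i j k l : Fin n, i < j → j < k → k < l → (w i : ℕ) < w j → (w j : ℕ) < w l →
        (w k : ℕ) ≤ w l := by
      intro i j k l g1 g2 g3 g4 g5
      have := h1 i.succ j.succ k.succ l.succ (by simpa) (by simpa) (by simpa)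
      simp only [ins_succ] at this
      have := hs i; have := hs j; have := hs k; have := hs l
      omega
    by_cases hc : (c : ℕ) < b
    · refine Or.inl ⟨hc, a1, fun i j k g1 g2 g3 g4 => ?_, fun i j g1 g2 => ?_⟩
      · have := h1 0 i.succ j.succ k.succ (Fin.succ_pos _) (by simpa) (by simpa)
        simp only [ins_succ, ins_zero] at this
        have := hs i; have := hs j; have := hs k
        omega
      · have := h3 i.succ j.succ (by simpa)
        simp only [ins_succ] at this
        have := hs i; have := hs j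
        omega
    · refine Or.inr ⟨by omega, ?_, a1, fun i j k g1 g2 g3 g4 => ?_, fun i j g1 g2 => ?_⟩
      · by_contra ht
        have hn := c.2
        obtain ⟨j, hj⟩ := w.surjective ⟨t, by omega⟩
        have := h3 0 j.succ (Fin.succ_pos _)
        simp only [ins_succ, ins_zero] at this
        have h5 := hs j
        have h6 : (w j : ℕ) = t := by rw [hj]
        omega
      · have := h2 i.succ j.succ k.succ (by simpa) (by simpa)
        simp only [ins_succ] at this
        have := hs i; have := hs j; have := hs k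
        omega
      · have := h2 0 i.succ j.succ (Fin.succ_pos _) (by simpa)
        simp only [ins_succ, ins_zero] at this
        have := hs i; have := hs j
        omega
  · intro h
    refine ⟨fun i j k l g1 g2 g3 => ?_, fun i j k g1 g2 => ?_, fun i j g1 => ?_⟩
    · obtain ⟨j, rfl⟩ := Fin.exists_succ_eq.2 (Fin.ne_zero_of_lt g1)
      obtain ⟨k, rfl⟩ := Fin.exists_succ_eq.2 (Fin.ne_zero_of_lt g2)
      obtain ⟨l, rfl⟩ := Fin.exists_succ_eq.2 (Fin.ne_zero_of_lt g3)
      rw [Fin.succ_lt_succ_iff] at g2 g3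
      have := hs j; have := hs k; have := hs l
      refine Fin.cases ?_ (fun i g1 => ?_) i g1
      · intro _
        simp only [ins_succ, ins_zero]
        rcases h with ⟨_, _, h2, _⟩ | ⟨_, _, _, h2, _⟩ <;> have := h2 j k l g2 g3 <;> omega
      · rw [Fin.succ_lt_succ_iff] at g1
        have := hs i
        simp only [ins_succ]
        rcases h with ⟨_, h2, _⟩ | ⟨_, _, h2, _⟩ <;> have := h2 i j k l g1 g2 g3 <;> omega
    · obtain ⟨j, rfl⟩ := Fin.exists_succ_eq.2 (Fin.ne_zero_of_lt g1)
      obtain ⟨k, rfl⟩ := Fin.exists_succ_eq.2 (Fin.ne_zero_of_lt g2)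
      rw [Fin.succ_lt_succ_iff] at g2
      have := hs j; have := hs k
      refine Fin.cases ?_ (fun i g1 => ?_) i g1
      · intro _
        simp only [ins_succ, ins_zero]
        rcases h with ⟨_, _, _, h2⟩ | ⟨_, _, _, _, h2⟩ <;> have := h2 j k g2 <;> omega
      · rw [Fin.succ_lt_succ_iff] at g1
        have := hs i
        simp only [ins_succ]
        rcases h with ⟨_, _, h2, _⟩ | ⟨_, _, _, h2, _⟩ <;> have := h2 i j k g1 g2 <;> omega
    · obtain ⟨j, rfl⟩ := Fin.exists_succ_eq.2 (Fin.ne_zero_of_lt g1)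
      have := hs j
      refine Fin.cases ?_ (fun i g1 => ?_) i g1
      · intro _
        simp only [ins_succ, ins_zero]
        rcases h with ⟨_, _⟩ | ⟨_, _, _⟩ <;> omega
      · rw [Fin.succ_lt_succ_iff] at g1
        have := hs i
        simp only [ins_succ]
        rcases h with ⟨_, _, _, h2⟩ | ⟨_, _, _, _, h2⟩ <;> have := h2 i j g1 <;> omega

open Classical in
noncomputable def N (m b t k : ℕ) : ℚ := ∑ w : Perm (Fin m), if P b t w ∧ inv w = k then 1 else 0

lemma N_zero (b t k : ℕ) : N 0 b t k = if k = 0 then 1 else 0 := by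
  simp [N, P, inv, eq_comm]

open Classical in
lemma N_succ {b t : ℕ} (hbt : b ≤ t) (m k : ℕ) : N (m + 1) b t k = ∑ c ∈ range (m + 1),
    if c ≤ k then (if c < b then N m c (t - 1) (k - c) else if c ≤ t then N m b c (k - c) else 0)
    else 0 := by
  rw [N, ← ins_bij.sum_comp, Fintype.sum_prod_type, ← Fin.sum_univ_eq_sum_range
    (fun c => if c ≤ k then (if c < b then N m c (t - 1) (k - c) else if c ≤ t then
      N m b c (k - c) else 0) else 0)]
  refine sum_congr rfl fun c _ => ?_
  simp only [N]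
  split_ifs with h1 h2 h3
  · refine sum_congr rfl fun w _ => if_congr ?_ rfl rfl
    rw [P_ins hbt, inv_ins]
    constructor
    · rintro ⟨h | h, h'⟩
      · exact ⟨h.2, by omega⟩
      · omega
    · exact fun h => ⟨Or.inl ⟨h2, h.1⟩, by omega⟩
  · refine sum_congr rfl fun w _ => if_congr ?_ rfl rfl
    rw [P_ins hbt, inv_ins]
    constructor
    · rintro ⟨h | h, h'⟩
      · omega
      · exact ⟨h.2.2, by omega⟩
    · exact fun h => ⟨Or.inr ⟨by omega, h3, h.1⟩, by omega⟩
  · refine sum_eq_zero fun w _ => if_neg ?_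
    rw [P_ins hbt, inv_ins]
    rintro ⟨h | h, h'⟩ <;> omega
  · refine sum_eq_zero fun w _ => if_neg ?_
    rw [inv_ins]
    omega

lemma N00 (m k : ℕ) : N m 0 0 k = if k = 0 then 1 else 0 := by
  induction m with
  | zero => exact N_zero _ _ _
  | succ m ih =>
    rw [N_succ le_rfl, sum_range_succ', sum_eq_zero (fun c _ => by simp)]
    simpa using ih

lemma N_cut {b t m k : ℕ} (hbt : b ≤ t) (hk : k ≤ m) : N (m + 1) b t k = ∑ c ∈ range (k + 1),
    (if c < b then N m c (t - 1) (k - c) else if c ≤ t then N m b c (k - c) else 0) := by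
  rw [N_succ hbt, ← sum_filter]
  congr 1
  ext c; simp only [mem_filter, mem_range]; omega

lemma N_stab (m : ℕ) : ∀ b t k, b ≤ t → k + min b 1 + min t 1 ≤ m →
    N (m + 1) b t k = N m b t k := by
  induction m with
  | zero =>
    intro b t k h1 h2
    obtain rfl : t = 0 := by omega
    obtain rfl : b = 0 := by omega
    rw [N00, N00]
  | succ m ih =>
    intro b t k h1 h2
    rcases Nat.eq_zero_or_pos t with rfl | ht
    · obtain rfl : b = 0 := by omega
      rw [N00, N00]
    rw [N_cut h1 (by omega), N_cut h1 (by omega)]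
    refine sum_congr rfl fun c hc => ?_
    rw [mem_range] at hc
    split_ifs with g1 g2
    · exact ih _ _ _ (by omega) (by omega)
    · exact ih _ _ _ (by omega) (by omega)
    · rfl

lemma N_stab' {b t k m : ℕ} (h1 : b ≤ t) (d : ℕ) (h2 : k + min b 1 + min t 1 ≤ m) :
    N (m + d) b t k = N m b t k := by
  induction d with
  | zero => rfl
  | succ d ih => rw [← add_assoc, N_stab _ _ _ _ h1 (by omega), ih]

noncomputable def f (b t k : ℕ) : ℚ := N (k + 2) b t k

lemma N_eq_f {b t k m : ℕ} (h1 : b ≤ t) (h2 : k + min b 1 + min t 1 ≤ m) :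
    N m b t k = f b t k := by
  have e1 := N_stab' h1 (k + 2) h2
  have e2 := N_stab' (k := k) (m := k + 2) h1 m (by omega)
  rw [f, ← e1, ← e2, add_comm]

lemma f_rec {b t : ℕ} (h1 : b ≤ t + 1) (k : ℕ) : f b (t + 1) k = ∑ c ∈ range (k + 1),
    (if c < b then f c t (k - c) else if c ≤ t + 1 then f b c (k - c) else 0) := by
  rw [← N_eq_f (m := k + 2 + 1) h1 (by omega), N_cut h1 (by omega)]
  refine sum_congr rfl fun c hc => ?_
  split_ifs with g1 g2
  · exact N_eq_f (by omega) (by omega)
  · exact N_eq_f (by omega) (by omega)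
  · rfl

lemma av_eq {m s : ℕ} (h : m ≤ s) (k : ℕ) : (av m k : ℚ) = N m s s k := by
  classical
  rw [av, Nat.card_eq_fintype_card, Fintype.card_subtype, card_filter, N]
  push_cast
  refine sum_congr rfl fun w _ => if_congr (and_congr_left fun _ => ?_) rfl rfl
  constructor
  · intro hw
    refine ⟨fun i j k l g1 g2 g3 g4 g5 => ?_, fun i j k _ _ g _ => ?_, fun i j _ g => ?_⟩
    · by_contra g6
      exact hw ⟨i, j, k, l, g1, g2, g3, g4, g5, not_le.1 g6⟩
    · have := (w i).2; omega
    · have := (w j).2; omega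
  · rintro ⟨h1, -⟩ ⟨i, j, k, l, g1, g2, g3, g4, g5, g6⟩
    exact absurd (h1 i j k l g1 g2 g3 g4 g5) (not_le.2 g6)

lemma av_f {k m s : ℕ} (hm : k + 2 ≤ m) (hs : k + 2 ≤ s) : (av m k : ℚ) = f s s k := by
  rw [av_eq le_rfl, N_eq_f le_rfl (by omega), f, ← av_eq hm, av_eq hs, f]

end Pool.Agent.H.MP_6fb490_co
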