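import Pool.Agent.H.MP_6fb490_co.A

set_option autoImplicit false

namespace Pool.Agent.H.MP_6fb490_co

open Finset PowerSeries

abbrev U := Polynomial (PowerSeries ℚ)

noncomputable def x : U := Polynomial.C X
noncomputable def u : U := Polynomial.X

noncomputable def subV : U⟦X⟧ →+* U⟦X⟧ := rescale x
noncomputable def subU : U⟦X⟧ →+* U⟦X⟧ := PowerSeries.map (Polynomial.compRingHom (x * u))
noncomputable def subUV : U⟦X⟧ →+* U⟦X⟧ :=
  (rescale u).comp (PowerSeries.map (Polynomial.compRingHom x))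

def Sys (Φ : U⟦X⟧) : Prop :=
  constantCoeff Φ = 1 ∧
    (1 - C u) * (1 - X) * Φ =
      (1 - C u) * subV Φ + C u * X * (1 - X) * (subU Φ - C u * subUV Φ)

lemma uniq {Φ Ψ : U⟦X⟧} (h1 : Sys Φ) (h2 : Sys Ψ) : Φ = Ψ := by
  set D := Φ - Ψ with hD
  have e : C (1 - u) * (D - subV D) =
      X * ((1 - C u) * D + C u * (1 - X) * (subU D - C u * subUV D)) := by
    simp only [hD, map_sub, map_one]
    linear_combination h1.2 - h2.2
  have key : ∀ s, X ^ (s + 1) ∣ D := by
    intro s
    induction s with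
    | zero => rw [zero_add, pow_one, X_dvd_iff, hD, map_sub, h1.1, h2.1, sub_self]
    | succ s ih =>
      have ih' := X_pow_dvd_iff.1 ih
      have a1 : X ^ (s + 1) ∣ subU D := X_pow_dvd_iff.2 fun m hm => by
        simp [subU, ih' m hm]
      have a2 : X ^ (s + 1) ∣ subUV D := X_pow_dvd_iff.2 fun m hm => by
        simp [subUV, ih' m hm]
      have a3 : X ^ (s + 1 + 1) ∣ C (1 - u) * (D - subV D) := by
        rw [e, pow_succ']
        exact mul_dvd_mul_left _ (dvd_add (ih.mul_left _) ((dvd_sub a1 (a2.mul_left _)).mul_left _))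
      have a4 := X_pow_dvd_iff.1 a3 (s + 1) (by omega)
      rw [coeff_C_mul, map_sub, subV, coeff_rescale] at a4
      have a5 : (1 - u) * (1 - x ^ (s + 1)) * coeff (s + 1) D = 0 := by linear_combination a4
      have b1 : (1 - u : U) ≠ 0 := fun h => by
        have := congrArg (Polynomial.eval 0) h
        simp [u] at this
      have b2 : (1 - x ^ (s + 1) : U) ≠ 0 := fun h => by
        have := congrArg (fun p => constantCoeff (Polynomial.eval 0 p)) h
        simp [x] at this
      have a6 := (mul_eq_zero.1 a5).resolve_left (mul_ne_zero b1 b2)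
      refine X_pow_dvd_iff.2 fun m hm => ?_
      rcases Nat.lt_succ_iff_lt_or_eq.1 hm with g | rfl
      · exact ih' m g
      · exact a6
  rw [← sub_eq_zero]
  ext1 m
  exact X_pow_dvd_iff.1 (key m) m (by omega)

noncomputable def F (b t : ℕ) : ℚ⟦X⟧ := PowerSeries.mk (f b t)

lemma F_rec {b t : ℕ} (h : b ≤ t + 1) : F b (t + 1) =
    ∑ c ∈ range b, X ^ c * F c t + ∑ c ∈ Ico b (t + 2), X ^ c * F b c := by
  ext k
  simp only [F, map_add, map_sum, coeff_X_pow_mul', coeff_mk]
  rw [f_rec h, sum_ite, ← sum_filter, ← sum_filter, ← sum_filter, filter_filter]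
  congr 1
  · congr 1; ext c; simp only [mem_filter, mem_range]; omega
  · congr 1; ext c; simp only [mem_filter, mem_range, mem_Ico]; omega

lemma F00 : F 0 0 = 1 := by
  ext k
  simp [F, f, N00, coeff_one]

noncomputable def Q (s : ℕ) : U := ∑ b ∈ range (s + 1), Polynomial.C (F b s) * u ^ b

lemma Q_rec (s : ℕ) : (1 - u) * Q (s + 1) = (1 - u) * ∑ c ∈ range (s + 2), x ^ c * Q c +
    u * ((Q s).comp (x * u) - u * (u ^ s * (Q s).comp x)) := by
  have e1 : ∑ c ∈ range (s + 2), x ^ c * Q c =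
      ∑ b ∈ range (s + 2), ∑ c ∈ Ico b (s + 2), x ^ c * (Polynomial.C (F b c) * u ^ b) := by
    simp only [Q, mul_sum]
    refine sum_comm' fun c b => ?_
    simp only [mem_range, mem_Ico]; omega
  have e2 : ∑ b ∈ range (s + 2), ∑ c ∈ range b, x ^ c * (Polynomial.C (F c s) * u ^ b) =
      ∑ c ∈ range (s + 1), ∑ b ∈ Ico (c + 1) (s + 2), x ^ c * (Polynomial.C (F c s) * u ^ b) := by
    refine sum_comm' fun c b => ?_
    simp only [mem_range, mem_Ico]; omega
  have e3 : Q (s + 1) = ∑ b ∈ range (s + 2), ∑ c ∈ range b, x ^ c * (Polynomial.C (F c s) * u ^ b)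
      + ∑ b ∈ range (s + 2), ∑ c ∈ Ico b (s + 2), x ^ c * (Polynomial.C (F b c) * u ^ b) := by
    rw [Q, ← sum_add_distrib]
    refine sum_congr rfl fun b hb => ?_
    rw [F_rec (by rw [mem_range] at hb; omega)]
    simp only [map_add, map_sum, map_mul, map_pow, add_mul, sum_mul, x, mul_assoc]
  have e4 : (1 - u) * ∑ c ∈ range (s + 1), ∑ b ∈ Ico (c + 1) (s + 2),
      x ^ c * (Polynomial.C (F c s) * u ^ b) =
      u * ((Q s).comp (x * u) - u * (u ^ s * (Q s).comp x)) := by
    simp only [Q, Polynomial.sum_comp, Polynomial.mul_comp, Polynomial.C_comp, Polynomial.pow_comp,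
      show ∀ p : U, u.comp p = p from fun p => Polynomial.X_comp]
    rw [mul_sum, mul_sum, mul_sum, ← sum_sub_distrib, mul_sum]
    refine sum_congr rfl fun c hc => ?_
    have := geom_sum_Ico_mul_neg u (m := c + 1) (n := s + 2) (by rw [mem_range] at hc; omega)
    rw [← mul_sum, ← mul_sum]
    linear_combination (x ^ c * Polynomial.C (F c s)) * this
  rw [e3, e1, e2, mul_add, e4, add_comm]

lemma sys_sol : Sys (PowerSeries.mk Q) := by
  have h0 : Q 0 = 1 := by simp [Q, F00]
  refine ⟨by simpa using h0, ?_⟩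
  have e : C (1 - u) * PowerSeries.mk Q = C (1 - u) * (PowerSeries.mk 1 * subV (PowerSeries.mk Q)) +
      C u * (X * (subU (PowerSeries.mk Q) - C u * subUV (PowerSeries.mk Q))) := by
    ext1 s
    have e1 : coeff s (PowerSeries.mk 1 * subV (PowerSeries.mk Q)) =
        ∑ c ∈ range (s + 1), x ^ c * Q c := by
      rw [mul_comm, coeff_mul, Nat.sum_antidiagonal_eq_sum_range_succ_mk]
      simp [subV]
    rw [map_add, coeff_C_mul, coeff_C_mul, coeff_C_mul, e1, coeff_mk]
    cases s with
    | zero => simp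
    | succ s =>
      rw [coeff_succ_X_mul, Q_rec, map_sub, coeff_C_mul]
      simp [subU, subUV]
  have e' := mk_one_mul_one_sub_eq_one U
  rw [map_sub, map_one] at e
  linear_combination (1 - X) * e + (1 - C u) * subV (PowerSeries.mk Q) * e'

lemma Q_coeff (s : ℕ) : (Q s).coeff s = F s s := by
  simp only [Q, u, Polynomial.finsetSum_coeff, Polynomial.coeff_C_mul_X_pow]
  rw [sum_ite_eq]
  simp

end Pool.Agent.H.MP_6fb490_co
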